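import Pool.Agent.TH912.EQ.Query

set_option autoImplicit false

/-! End-of-Line for maps commuting with a group: the exact number of queries. -/

namespace Pool.Agent.TH912.EQ

open Pool.Agent.H435R3.Eol (Alg Alg.run Alg.Within IsSolution)

variable {X : Type}

/-! ### the adversary -/

/-- The state of the adversary: a line from `o` to `e` and fixed points elsewhere; the points in `R`
have not been asked for. -/
structure Inv (Γ : Set (X → X)) (o : X) (S P : X → X) (e : X) (R : Finset X) : Prop where
  cS : ∀ g ∈ Γ, ∀ x, S (g x) = g (S x)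
  cP : ∀ g ∈ Γ, ∀ x, P (g x) = g (P x)
  Po : P o = o
  So : S o ≠ o
  eo : e ≠ o
  eR : e ∉ R
  oR : o ∉ R
  eF : ∀ g ∈ Γ, g e = e
  RF : ∀ y ∈ R, ∀ g ∈ Γ, g y = y
  i1 : S (P e) = e
  i2 : ∀ x, P x ≠ e
  i3 : ∀ y ∈ R, ∀ x, S x = y → x = y
  i4 : ∀ y ∈ R, ∀ x, P x = y → x = y
  i5 : ∀ v, v ≠ e → P (S v) = v ∧ (v ≠ o → S (P v) = v)
  i6 : S e = e
  i7 : ∀ y ∈ R, S y = y

open Classical in
theorem comm_update {Γ : Set (X → X)} (hinj : ∀ g ∈ Γ, Function.Injective g) {S : X → X}
    (hS : ∀ g ∈ Γ, ∀ x, S (g x) = g (S x)) {a b : X} (ha : ∀ g ∈ Γ, g a = a)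
    (hb : ∀ g ∈ Γ, g b = b) :
    ∀ g ∈ Γ, ∀ x, Function.update S a b (g x) = g (Function.update S a b x) := by
  intro g hg x
  by_cases h : x = a
  · subst h
    rw [ha g hg, Function.update_self, hb g hg]
  · have h' : g x ≠ a := fun h2 => h (hinj g hg (h2.trans (ha g hg).symm))
    rw [Function.update_of_ne h', Function.update_of_ne h, hS g hg]

open Classical in
theorem inv_step {Γ : Set (X → X)} {o : X} (hinj : ∀ g ∈ Γ, Function.Injective g) {S P : X → X}
    {e : X} {R : Finset X} (h : Inv Γ o S P e R) {y : X} (hy : y ∈ R) :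
    Inv Γ o (Function.update S e y) (Function.update P y e) y (R.erase y) := by
  have hey : e ≠ y := fun h' => h.eR (h' ▸ hy)
  have hoy : o ≠ y := fun h' => h.oR (h' ▸ hy)
  refine
    { cS := comm_update hinj h.cS h.eF (h.RF y hy)
      cP := comm_update hinj h.cP (h.RF y hy) h.eF
      Po := ?_, So := ?_, eo := hoy.symm, eR := by simp, oR := ?_, eF := h.RF y hy
      RF := fun z hz => h.RF z (Finset.mem_of_mem_erase hz)
      i1 := ?_, i2 := ?_, i3 := ?_, i4 := ?_, i5 := ?_, i6 := ?_, i7 := ?_ }
  · rw [Function.update_of_ne hoy, h.Po]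
  · rw [Function.update_of_ne h.eo.symm]
    exact h.So
  · intro h'
    exact h.oR (Finset.mem_of_mem_erase h')
  · rw [Function.update_self, Function.update_self]
  · intro x
    by_cases hx : x = y
    · subst hx
      rw [Function.update_self]
      exact hey
    · rw [Function.update_of_ne hx]
      intro h'
      exact hx (h.i4 y hy x h')
  · intro z hz x hx
    obtain ⟨hzy, hz⟩ := Finset.mem_erase.1 hz
    by_cases hxe : x = e
    · subst hxe
      rw [Function.update_self] at hx
      exact absurd hx.symm hzy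
    · rw [Function.update_of_ne hxe] at hx
      exact h.i3 z hz x hx
  · intro z hz x hx
    obtain ⟨hzy, hzR⟩ := Finset.mem_erase.1 hz
    by_cases hxy : x = y
    · subst hxy
      rw [Function.update_self] at hx
      exact absurd (by rw [hx]; exact hzR) h.eR
    · rw [Function.update_of_ne hxy] at hx
      exact h.i4 z hzR x hx
  · intro v hv
    constructor
    · by_cases hve : v = e
      · subst hve
        rw [Function.update_self, Function.update_self]
      · rw [Function.update_of_ne hve, Function.update_of_ne]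
        · exact (h.i5 v hve).1
        · intro h'
          exact hv (h.i3 y hy v h')
    · intro hvo
      rw [Function.update_of_ne hv, Function.update_of_ne (h.i2 v)]
      by_cases hve : v = e
      · subst hve
        exact h.i1
      · exact (h.i5 v hve).2 hvo
  · rw [Function.update_of_ne hey.symm]
    exact h.i7 y hy
  · intro z hz
    obtain ⟨hzy, hzR⟩ := Finset.mem_erase.1 hz
    have hze : z ≠ e := fun h' => h.eR (h' ▸ hzR)
    rw [Function.update_of_ne hze]
    exact h.i7 z hzR

open Classical in
theorem adv_out {Γ : Set (X → X)} {o : X} (hinj : ∀ g ∈ Γ, Function.Injective g) {S P : X → X}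
    {e : X} {R : Finset X} (h : Inv Γ o S P e R) (z : X) :
    ∃ S' P' : X → X, (∀ x, x ≠ e → x ∉ R → S' x = S x ∧ P' x = P x) ∧ P' o = o ∧ S' o ≠ o ∧
      (∀ g ∈ Γ, ∀ x, S' (g x) = g (S' x)) ∧ (∀ g ∈ Γ, ∀ x, P' (g x) = g (P' x)) ∧
      ¬ IsSolution o S' P' z := by
  by_cases hz : z = e
  · subst hz
    refine ⟨S, Function.update P z z, fun x hx _ => ⟨rfl, Function.update_of_ne hx _ _⟩, ?_, h.So,
      h.cS, comm_update hinj h.cP h.eF h.eF, ?_⟩
    · rw [Function.update_of_ne h.eo.symm]
      exact h.Po
    · rintro (h' | ⟨_, h'⟩)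
      · rw [h.i6, Function.update_self] at h'
        exact h' rfl
      · rw [Function.update_self, h.i6] at h'
        exact h' rfl
  · refine ⟨S, P, fun x _ _ => ⟨rfl, rfl⟩, h.Po, h.So, h.cS, h.cP, ?_⟩
    rintro (h' | ⟨hzo, h'⟩)
    · exact h' (h.i5 z hz).1
    · exact h' ((h.i5 z hz).2 hzo)

open Classical in
theorem inv_erase {Γ : Set (X → X)} {o : X} {S P : X → X} {e : X} {R : Finset X}
    (h : Inv Γ o S P e R) (y : X) : Inv Γ o S P e (R.erase y) :=
  { cS := h.cS, cP := h.cP, Po := h.Po, So := h.So, eo := h.eo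
    eR := fun h' => h.eR (Finset.mem_of_mem_erase h')
    oR := fun h' => h.oR (Finset.mem_of_mem_erase h')
    eF := h.eF
    RF := fun z hz => h.RF z (Finset.mem_of_mem_erase hz)
    i1 := h.i1, i2 := h.i2
    i3 := fun z hz => h.i3 z (Finset.mem_of_mem_erase hz)
    i4 := fun z hz => h.i4 z (Finset.mem_of_mem_erase hz)
    i5 := h.i5, i6 := h.i6
    i7 := fun z hz => h.i7 z (Finset.mem_of_mem_erase hz) }

open Classical in
theorem adversary {Γ : Set (X → X)} {o : X} (hinj : ∀ g ∈ Γ, Function.Injective g) :
    ∀ (q : ℕ) (A : Alg X), A.Within q → ∀ (S P : X → X) (e : X) (R : Finset X),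
      Inv Γ o S P e R → q ≤ R.card →
      ∃ S' P' : X → X, (∀ x, x ≠ e → x ∉ R → S' x = S x ∧ P' x = P x) ∧ P' o = o ∧ S' o ≠ o ∧
        (∀ g ∈ Γ, ∀ x, S' (g x) = g (S' x)) ∧ (∀ g ∈ Γ, ∀ x, P' (g x) = g (P' x)) ∧
        ¬ IsSolution o S' P' (A.run S' P')
  | q, .out z, _, S, P, e, R, h, _ => adv_out hinj h z
  | 0, .ask _ _, hA, _, _, _, _, _, _ => absurd hA id
  | q + 1, .ask v k, hA, S, P, e, R, h, hq => by
    have hA' : ∀ a, (k a).Within q := hA
    by_cases hve : v = e
    · subst hve
      obtain ⟨y, hy⟩ : R.Nonempty := by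
        rw [← Finset.card_pos]
        omega
      have hyv : v ≠ y := fun h' => h.eR (h' ▸ hy)
      obtain ⟨S', P', h1, h2⟩ := adversary hinj q (k (y, P v)) (hA' _) _ _ _ _
        (inv_step hinj h hy) (by rw [Finset.card_erase_of_mem hy]; omega)
      have hv := h1 v hyv (fun h' => h.eR (Finset.mem_of_mem_erase h'))
      rw [Function.update_self, Function.update_of_ne hyv] at hv
      refine ⟨S', P', ?_, ?_⟩
      · intro x hx hxR
        have hxy : x ≠ y := fun h' => hxR (h' ▸ hy)
        have := h1 x hxy (fun h' => hxR (Finset.mem_of_mem_erase h'))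
        rwa [Function.update_of_ne hx, Function.update_of_ne hxy] at this
      · have e1 : (Alg.ask v k).run S' P' = (k (y, P v)).run S' P' := by
          show (k (S' v, P' v)).run S' P' = _
          rw [hv.1, hv.2]
        rw [e1]
        exact h2
    · obtain ⟨S', P', h1, h2⟩ := adversary hinj q (k (S v, P v)) (hA' _) S P e (R.erase v)
        (inv_erase h v) (by have := Finset.pred_card_le_card_erase (s := R) (a := v); omega)
      have hv := h1 v hve (by simp)
      refine ⟨S', P', ?_, ?_⟩
      · intro x hx hxR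
        exact h1 x hx (fun h' => hxR (Finset.mem_of_mem_erase h'))
      · have e1 : (Alg.ask v k).run S' P' = (k (S v, P v)).run S' P' := by
          show (k (S' v, P' v)).run S' P' = _
          rw [hv.1, hv.2]
        rw [e1]
        exact h2

open Classical in
/-- **Lower bound**: fewer than `F - 1` questions do not suffice. -/
theorem exact_lower [Finite X] (o : X) (Γ : Set (X → X))
    (hΓ : ∀ g ∈ Γ, g o = o ∧ Function.Injective g) (q : ℕ)
    (hq : q + 2 ≤ {x : X | ∀ g ∈ Γ, g x = x}.ncard) (A : Alg X) (hA : A.Within q) :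
    ∃ S P : X → X, P o = o ∧ S o ≠ o ∧
      (∀ g ∈ Γ, ∀ x, S (g x) = g (S x)) ∧ (∀ g ∈ Γ, ∀ x, P (g x) = g (P x)) ∧
      ¬ IsSolution o S P (A.run S P) := by
  have hinj : ∀ g ∈ Γ, Function.Injective g := fun g hg => (hΓ g hg).2
  have hfin := Set.toFinite {x : X | ∀ g ∈ Γ, g x = x}
  rw [Set.ncard_eq_toFinset_card _ hfin] at hq
  have hmem : ∀ x, x ∈ hfin.toFinset ↔ ∀ g ∈ Γ, g x = x := by
    intro x
    simp
  have hoF : o ∈ hfin.toFinset := (hmem o).2 fun g hg => (hΓ g hg).1
  obtain ⟨e, he⟩ : (hfin.toFinset.erase o).Nonempty := by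
    rw [← Finset.card_pos, Finset.card_erase_of_mem hoF]
    omega
  obtain ⟨heo, heF⟩ := Finset.mem_erase.1 he
  have hinv : Inv Γ o (Function.update id o e) (Function.update id e o) e
      ((hfin.toFinset.erase o).erase e) := by
    have hR : ∀ y ∈ (hfin.toFinset.erase o).erase e, y ≠ e ∧ y ≠ o ∧ ∀ g ∈ Γ, g y = y := by
      intro y hy
      obtain ⟨h1, h2⟩ := Finset.mem_erase.1 hy
      obtain ⟨h3, h4⟩ := Finset.mem_erase.1 h2
      exact ⟨h1, h3, (hmem y).1 h4⟩
    refine
      { cS := comm_update hinj (fun _ _ _ => rfl) ((hmem o).1 hoF) ((hmem e).1 heF)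
        cP := comm_update hinj (fun _ _ _ => rfl) ((hmem e).1 heF) ((hmem o).1 hoF)
        Po := ?_, So := ?_, eo := heo, eR := by simp, oR := by simp, eF := (hmem e).1 heF
        RF := fun y hy => (hR y hy).2.2
        i1 := ?_, i2 := ?_, i3 := ?_, i4 := ?_, i5 := ?_, i6 := ?_, i7 := ?_ }
    · rw [Function.update_of_ne heo.symm]
      rfl
    · rw [Function.update_self]
      exact heo
    · rw [Function.update_self, Function.update_self]
    · intro x
      by_cases hx : x = e
      · subst hx
        rw [Function.update_self]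
        exact heo.symm
      · rw [Function.update_of_ne hx]
        exact hx
    · intro y hy x hx
      by_cases hxo : x = o
      · subst hxo
        rw [Function.update_self] at hx
        exact absurd hx.symm (hR y hy).1
      · rw [Function.update_of_ne hxo] at hx
        exact hx
    · intro y hy x hx
      by_cases hxe : x = e
      · subst hxe
        rw [Function.update_self] at hx
        exact absurd hx.symm (hR y hy).2.1
      · rw [Function.update_of_ne hxe] at hx
        exact hx
    · intro v hv
      constructor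
      · by_cases hvo : v = o
        · subst hvo
          rw [Function.update_self, Function.update_self]
        · rw [Function.update_of_ne hvo]
          show Function.update id e o v = v
          rw [Function.update_of_ne hv]
          rfl
      · intro hvo
        rw [Function.update_of_ne hv]
        show Function.update id o e v = v
        rw [Function.update_of_ne hvo]
        rfl
    · rw [Function.update_of_ne heo]
      rfl
    · intro y hy
      rw [Function.update_of_ne (hR y hy).2.1]
      rfl
  obtain ⟨S, P, _, h⟩ := adversary hinj q A hA _ _ _ _ hinv (by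
    rw [Finset.card_erase_of_mem he, Finset.card_erase_of_mem hoF]
    omega)
  exact ⟨S, P, h⟩

/-! ### the algorithm -/

open Classical in
/-- ask for all points of a list, then decide -/
noncomputable def askAll (dec : (X → X × X) → X) : List X → (X → X × X) → Alg X
  | [], tab => .out (dec tab)
  | v :: L, tab => .ask v fun a => askAll dec L (Function.update tab v a)

theorem askAll_within (dec : (X → X × X) → X) : ∀ (L : List X) (tab : X → X × X) (q : ℕ),
    L.length ≤ q → (askAll dec L tab).Within q
  | [], tab, q, _ => by cases q <;> simp [askAll, Alg.Within]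
  | v :: L, tab, 0, h => by simp at h
  | v :: L, tab, q + 1, h => by
    intro a
    exact askAll_within dec L _ q (by simpa using h)

open Classical in
theorem askAll_run (dec : (X → X × X) → X) (S P : X → X) : ∀ (L : List X) (tab : X → X × X),
    (askAll dec L tab).run S P = dec fun x => if x ∈ L then (S x, P x) else tab x
  | [], tab => by
    show dec tab = _
    simp
  | v :: L, tab => by
    show (askAll dec L (Function.update tab v (S v, P v))).run S P = _
    rw [askAll_run dec S P L]
    congr 1
    funext x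
    by_cases hx : x ∈ L
    · simp [hx]
    · by_cases hxv : x = v
      · subst hxv
        simp [hx]
      · simp [hx, hxv]

open Classical in
/-- **Upper bound**: `F - 1` questions suffice. -/
theorem exact_upper [Finite X] (o : X) (Γ : Set (X → X)) (hΓ : ∀ g ∈ Γ, g o = o) (q : ℕ)
    (hq : {x : X | ∀ g ∈ Γ, g x = x}.ncard ≤ q + 1) :
    ∃ A : Alg X, A.Within q ∧ ∀ S P : X → X, P o = o → S o ≠ o →
      (∀ g ∈ Γ, ∀ x, S (g x) = g (S x)) → IsSolution o S P (A.run S P) := by
  have hfin := Set.toFinite {x : X | ∀ g ∈ Γ, g x = x}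
  rw [Set.ncard_eq_toFinset_card _ hfin] at hq
  have hmem : ∀ x, x ∈ hfin.toFinset ↔ ∀ g ∈ Γ, g x = x := by
    intro x
    simp
  have hoF : o ∈ hfin.toFinset := (hmem o).2 hΓ
  let L : List X := (hfin.toFinset.erase o).toList
  have hL : ∀ x, x ∈ L ↔ x ≠ o ∧ ∀ g ∈ Γ, g x = x := by
    intro x
    rw [Finset.mem_toList, Finset.mem_erase, hmem]
  let dec : (X → X × X) → X := fun tab =>
    if h : ∃ v ∈ L, (tab (tab v).1).2 ≠ v then h.choose else o
  refine ⟨askAll dec L fun _ => (o, o), askAll_within _ _ _ _ ?_, ?_⟩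
  · show (hfin.toFinset.erase o).toList.length ≤ q
    rw [Finset.length_toList, Finset.card_erase_of_mem hoF]
    omega
  · intro S P hP hS hc
    rw [askAll_run]
    have hSfix : ∀ v, (∀ g ∈ Γ, g v = v) → ∀ g ∈ Γ, g (S v) = S v := by
      intro v hv g hg
      rw [← hc g hg, hv g hg]
    obtain ⟨tab, htab⟩ : ∃ tab : X → X × X, tab = fun x => if x ∈ L then (S x, P x) else (o, o) :=
      ⟨_, rfl⟩
    rw [← htab]
    have ht : ∀ v ∈ L, (tab (tab v).1).2 = P (S v) := by
      intro v hv
      have e1 : (tab v).1 = S v := by rw [htab]; simp [hv]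
      rw [e1]
      by_cases ho : S v = o
      · have : o ∉ L := fun h => ((hL o).1 h).1 rfl
        rw [ho, htab]
        simp [this, hP]
      · have : S v ∈ L := (hL _).2 ⟨ho, hSfix v ((hL v).1 hv).2⟩
        rw [htab]
        simp [this]
    show IsSolution o S P (if h : ∃ v ∈ L, (tab (tab v).1).2 ≠ v then h.choose else o)
    by_cases h : ∃ v ∈ L, (tab (tab v).1).2 ≠ v
    · rw [dif_pos h]
      obtain ⟨h1, h2⟩ := h.choose_spec
      left
      rw [ht _ h1] at h2
      exact h2
    · rw [dif_neg h]
      push Not at h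
      left
      intro hcon
      have hall : ∀ v, (∀ g ∈ Γ, g v = v) → P (S v) = v := by
        intro v hv
        by_cases hvo : v = o
        · rw [hvo]
          exact hcon
        · have hvL := (hL v).2 ⟨hvo, hv⟩
          rw [← ht v hvL]
          exact h v hvL
      let s : {x : X | ∀ g ∈ Γ, g x = x} → {x : X | ∀ g ∈ Γ, g x = x} := fun v =>
        ⟨S v.1, hSfix v.1 v.2⟩
      have hs : Function.Injective s := by
        intro v v' hvv
        have h3 : S v.1 = S v'.1 := congrArg Subtype.val hvv
        apply Subtype.ext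
        rw [← hall v.1 v.2, ← hall v'.1 v'.2, h3]
      obtain ⟨v, hv⟩ := (Finite.injective_iff_surjective.1 hs) ⟨o, hΓ⟩
      have h4 : S v.1 = o := congrArg Subtype.val hv
      have h5 := hall v.1 v.2
      rw [h4, hP] at h5
      rw [← h5] at h4
      exact hS h4

end Pool.Agent.TH912.EQ
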