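import Pool.Agent.H435R3.Eol.Low

set_option autoImplicit false

/-! End-of-Line for maps commuting with a group: query algorithms. -/

namespace Pool.Agent.TH912.EQ

open Pool.Agent.H435R3.Eol

/-- The line `v 0 = o, v 1 = S (v 0), ...` has no repetition as long as `P` leads back. -/
theorem line_inj {X : Type} {o : X} {S P : X → X} (hP : P o = o) (hS : S o ≠ o) (v : ℕ → X)
    (h0 : v 0 = o) (h1 : ∀ i, v (i + 1) = S (v i)) (K : ℕ) (hback : ∀ i < K, P (v (i + 1)) = v i) :
    ∀ i j, i < j → j ≤ K → v i ≠ v j := by
  have a1 : ∀ i d, i + d ≤ K → v i = v (i + d) → v 0 = v d := by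
    intro i
    induction i with
    | zero => intro d _ h; simpa using h
    | succ i ih =>
      intro d hd h
      apply ih d (by omega)
      have e1 := hback i (by omega)
      have e2 := hback (i + d) (by omega)
      rw [show i + d + 1 = i + 1 + d by ring, ← h, e1] at e2
      exact e2
  have a2 : ∀ d, 1 ≤ d → d ≤ K → v d = o → v 1 = o := by
    intro d
    induction d with
    | zero => intro h; omega
    | succ d ih =>
      intro _ hd h
      rcases Nat.eq_zero_or_pos d with rfl | hpos
      · exact h
      · apply ih hpos (by omega)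
        have e1 := hback d (by omega)
        rw [h, hP] at e1
        exact e1.symm
  intro i j hij hj h
  obtain ⟨d, rfl⟩ : ∃ d, j = i + d := ⟨j - i, by omega⟩
  have e1 := a1 i d hj h
  rw [h0] at e1
  have e2 := a2 d (by omega) (by omega) e1.symm
  rw [h1, h0] at e2
  exact hS e2

/-- If all vertices of the line lie in a set with at most `K` elements then `P` does not lead back
everywhere before `K`. -/
theorem line_stops {X : Type} {o : X} {S P : X → X} (hP : P o = o) (hS : S o ≠ o) (v : ℕ → X)
    (h0 : v 0 = o) (h1 : ∀ i, v (i + 1) = S (v i)) (A : Set X) (hA : A.Finite)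
    (hvA : ∀ i, v i ∈ A) (K : ℕ) (hK : A.ncard ≤ K) :
    ∃ i < K, P (v (i + 1)) ≠ v i := by
  classical
  by_contra hcon
  push Not at hcon
  have h2 := line_inj hP hS v h0 h1 K hcon
  have h3 : ((Finset.range (K + 1)).image v).card = K + 1 := by
    rw [Finset.card_image_of_injOn, Finset.card_range]
    intro i hi j hj hij
    rw [Finset.mem_coe, Finset.mem_range] at hi hj
    rcases lt_trichotomy i j with h | h | h
    · exact absurd hij (h2 i j h (by omega))
    · exact h
    · exact absurd hij.symm (h2 j i h (by omega))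
  have h4 : (((Finset.range (K + 1)).image v : Finset X) : Set X) ⊆ A := by
    intro x hx
    rw [Finset.mem_coe, Finset.mem_image] at hx
    obtain ⟨i, _, rfl⟩ := hx
    exact hvA i
  have h5 := Set.ncard_le_ncard h4 hA
  rw [Set.ncard_coe_finset, h3] at h5
  omega

/-- Follow the line: `prev` is the last vertex whose values were asked for, `v` the next one. -/
noncomputable def walk {X : Type} : ℕ → X → X → Alg X
  | 0, prev, _ => .out prev
  | k + 1, prev, v => .ask v fun a => open Classical in
      if a.2 ≠ prev then .out prev else walk k v a.1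

theorem walk_within {X : Type} : ∀ (k : ℕ) (prev v : X), (walk k prev v).Within k
  | 0, prev, v => by simp [walk, Alg.Within]
  | k + 1, prev, v => by
    intro a
    dsimp only
    split_ifs
    · cases k <;> simp [Alg.Within]
    · exact walk_within k v a.1

open Classical in
theorem walk_run {X : Type} (S P : X → X) (w : ℕ → X) (h1 : ∀ i, w (i + 1) = S (w i)) :
    ∀ (k j : ℕ), (∃ i, j ≤ i ∧ i ≤ j + k ∧ P (w (i + 1)) ≠ w i) →
      P (S ((walk k (w j) (w (j + 1))).run S P)) ≠ (walk k (w j) (w (j + 1))).run S P
  | 0, j, h => by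
    obtain ⟨i, hi1, hi2, h⟩ := h
    have : i = j := by omega
    subst this
    rw [h1] at h
    exact h
  | k + 1, j, h => by
    show P (S ((if P (w (j + 1)) ≠ w j then Alg.out (w j) else
      walk k (w (j + 1)) (S (w (j + 1)))).run S P)) ≠ _
    by_cases hc : P (w (j + 1)) ≠ w j
    · have e : (walk (k + 1) (w j) (w (j + 1))).run S P = w j := by
        show (if P (w (j + 1)) ≠ w j then Alg.out (w j) else
          walk k (w (j + 1)) (S (w (j + 1)))).run S P = w j
        rw [if_pos hc]
        rfl
      rw [if_pos hc, e]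
      show P (S (w j)) ≠ w j
      rw [← h1]
      exact hc
    · have e : (walk (k + 1) (w j) (w (j + 1))).run S P =
          (walk k (w (j + 1)) (w (j + 1 + 1))).run S P := by
        show (if P (w (j + 1)) ≠ w j then Alg.out (w j) else
          walk k (w (j + 1)) (S (w (j + 1)))).run S P = _
        rw [if_neg hc, h1 (j + 1)]
      rw [if_neg hc, e, ← h1 (j + 1)]
      apply walk_run S P w h1 k (j + 1)
      obtain ⟨i, hi1, hi2, h⟩ := h
      have hij : i ≠ j := by
        rintro rfl
        exact hc h
      exact ⟨i, by omega, by omega, h⟩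

/-- **Upper bound**: `F` questions suffice. -/
theorem query_upper {X : Type} [Finite X] (o : X) (F : ℕ) (hF : 1 ≤ F) :
    ∃ A : Alg X, A.Within F ∧ ∀ Γ : Set (X → X), (∀ g ∈ Γ, g o = o) →
      {x : X | ∀ g ∈ Γ, g x = x}.ncard ≤ F →
      ∀ S P : X → X, P o = o → S o ≠ o → (∀ g ∈ Γ, ∀ x, S (g x) = g (S x)) →
        IsSolution o S P (A.run S P) := by
  refine ⟨.ask o fun a => walk (F - 1) o a.1, ?_, ?_⟩
  · obtain ⟨F, rfl⟩ : ∃ F', F = F' + 1 := ⟨F - 1, by omega⟩
    intro a
    exact walk_within F o a.1
  · intro Γ hΓ hcard S P hP hS hcomm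
    let w : ℕ → X := fun i => S^[i] o
    have h1 : ∀ i, w (i + 1) = S (w i) := fun i => Function.iterate_succ_apply' S i o
    have hfix : ∀ i, w i ∈ {x : X | ∀ g ∈ Γ, g x = x} := by
      intro i
      induction i with
      | zero => exact hΓ
      | succ i ih =>
        intro g hg
        rw [h1, ← hcomm g hg, ih g hg]
    obtain ⟨i, hi, hne⟩ := line_stops hP hS w rfl h1 _ (Set.toFinite _) hfix F hcard
    left
    exact walk_run S P w h1 (F - 1) 0 ⟨i, by omega, by omega, hne⟩

section lower

variable {X : Type} {D : ℕ} (e : V D → X)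

open Classical in
/-- extension by the identity -/
noncomputable def ext (S : V D → V D) (x : X) : X :=
  if h : ∃ y, e y = x then e (S h.choose) else x

theorem ext_eq (he : Function.Injective e) (S : V D → V D) (y : V D) :
    ext e S (e y) = e (S y) := by
  unfold ext
  have h : ∃ z, e z = e y := ⟨y, rfl⟩
  rw [dif_pos h, he h.choose_spec]

theorem ext_not (S : V D → V D) {x : X} (h : ¬ ∃ y, e y = x) : ext e S x = x := by
  unfold ext
  rw [dif_neg h]

open Classical in
/-- pull an algorithm back -/
noncomputable def pull : Alg X → Alg (V D)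
  | .out v => .out (if h : ∃ y, e y = v then h.choose else 0)
  | .ask v k => if h : ∃ y, e y = v then .ask h.choose fun a => pull (k (e a.1, e a.2))
      else pull (k (v, v))

theorem pull_within : ∀ (q : ℕ) (A : Alg X), A.Within q → (pull e A).Within q := by
  intro q A
  induction A generalizing q with
  | out v => intro _; cases q <;> simp [pull, Alg.Within]
  | ask v k ih =>
    intro h
    cases q with
    | zero => exact absurd h (by simp [Alg.Within])
    | succ q =>
      have h' : ∀ a, (k a).Within q := h
      unfold pull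
      split_ifs with hv
      · intro a
        exact ih _ q (h' _)
      · exact within_mono (ih _ q (h' _)) (by omega)

open Classical in
theorem pull_run (he : Function.Injective e) (S P : V D → V D) : ∀ A : Alg X, ∀ y,
    A.run (ext e S) (ext e P) = e y → (pull e A).run S P = y := by
  intro A
  induction A with
  | out v =>
    intro y h
    have hv : ∃ z, e z = v := ⟨y, h.symm⟩
    show (if h : ∃ y, e y = v then h.choose else 0) = y
    rw [dif_pos hv]
    apply he
    rw [hv.choose_spec]
    exact h
  | ask v k ih =>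
    intro y h
    unfold pull
    split_ifs with hv
    · apply ih
      have h1 : ext e S v = e (S hv.choose) := by
        conv_lhs => rw [← hv.choose_spec]
        exact ext_eq e he S _
      have h2 : ext e P v = e (P hv.choose) := by
        conv_lhs => rw [← hv.choose_spec]
        exact ext_eq e he P _
      show (k (e (S hv.choose), e (P hv.choose))).run (ext e S) (ext e P) = e y
      rw [← h1, ← h2]
      exact h
    · apply ih
      have h1 : ext e S v = v := ext_not e S hv
      have h2 : ext e P v = v := ext_not e P hv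
      have h3 : (k (ext e S v, ext e P v)).run (ext e S) (ext e P) = e y := h
      rw [h1, h2] at h3
      exact h3

end lower

/-- **Lower bound**: for every group of permutations with at least `F` common fixed points, each
algorithm with `q` questions, `(q + 3)² ≤ 2 F`, fails on some instance commuting with the group. -/
theorem query_lower {X : Type} [Finite X] (o : X) (Γ : Subgroup (Equiv.Perm X))
    (ho : ∀ g ∈ Γ, g o = o) (q : ℕ) (hq : (q + 3) ^ 2 ≤ 2 * {x : X | ∀ g ∈ Γ, g x = x}.ncard)
    (A : Alg X) (hA : A.Within q) :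
    ∃ S P : X → X, P o = o ∧ S o ≠ o ∧
      (∀ g ∈ Γ, ∀ x, S (g x) = g (S x)) ∧ (∀ g ∈ Γ, ∀ x, P (g x) = g (P x)) ∧
      ¬ IsSolution o S P (A.run S P) := by
  classical
  obtain ⟨Fix, hFix⟩ : ∃ Fix : Set X, Fix = {x : X | ∀ g ∈ Γ, g x = x} := ⟨_, rfl⟩
  rw [← hFix] at hq
  have hoF : o ∈ Fix := by rw [hFix]; exact ho
  have hpos : Fix.ncard ≠ 0 := by
    intro h
    rw [h] at hq
    have : 0 < (q + 3) ^ 2 := by positivity
    omega
  obtain ⟨D, hD⟩ : ∃ D, D = Nat.log 2 Fix.ncard := ⟨_, rfl⟩
  have hD1 : 2 ^ D ≤ Fix.ncard := by rw [hD]; exact Nat.pow_log_le_self 2 hpos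
  have hD2 : Fix.ncard < 2 ^ (D + 1) := by
    rw [hD]; exact Nat.lt_pow_succ_log_self (by norm_num) _
  -- an injection of `V D` into the fixed points
  have hcardV : Nat.card (V D) = 2 ^ D := by
    rw [Nat.card_eq_fintype_card, Fintype.card_fun, ZMod.card, Fintype.card_fin]
  have hfin : Finite Fix := inferInstance
  obtain ⟨f⟩ : Nonempty (V D ↪ Fix) := by
    have : Fintype Fix := Fintype.ofFinite _
    apply Function.Embedding.nonempty_of_card_le
    rw [← Nat.card_eq_fintype_card, ← Nat.card_eq_fintype_card, hcardV]
    exact hD1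
  let e : V D → X := fun y => (Equiv.swap (f 0) ⟨o, hoF⟩ (f y) : Fix)
  have he : Function.Injective e := by
    intro a b hab
    have := Subtype.ext hab
    exact f.injective ((Equiv.swap (f 0) ⟨o, hoF⟩).injective this)
  have he0 : e 0 = o := by
    show ((Equiv.swap (f 0) ⟨o, hoF⟩ (f 0) : Fix) : X) = o
    rw [Equiv.swap_apply_left]
  have hefix : ∀ y, ∀ g ∈ Γ, g (e y) = e y := by
    intro y
    have h1 : e y ∈ Fix := (Equiv.swap (f 0) ⟨o, hoF⟩ (f y)).2
    rw [hFix] at h1
    exact h1
  have hq' : (q + 3) ^ 2 < 2 ^ (D + 2) := by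
    have : 2 ^ (D + 2) = 2 * 2 ^ (D + 1) := by rw [pow_succ]; ring
    omega
  obtain ⟨S, P, hP0, hS0, _, _, _, hno⟩ := lower D 0 q hq' (pull e A) (pull_within e q A hA)
  have hcomm : ∀ (R : V D → V D), ∀ g ∈ Γ, ∀ x, ext e R (g x) = g (ext e R x) := by
    intro R g hg x
    by_cases hx : ∃ y, e y = x
    · obtain ⟨y, rfl⟩ := hx
      rw [hefix y g hg, ext_eq e he, hefix _ g hg]
    · have hgx : ¬ ∃ y, e y = g x := by
        rintro ⟨y, hy⟩
        apply hx
        refine ⟨y, ?_⟩
        apply g.injective
        rw [hefix y g hg]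
        exact hy
      rw [ext_not e R hx, ext_not e R hgx]
  refine ⟨ext e S, ext e P, ?_, ?_, hcomm S, hcomm P, ?_⟩
  · rw [← he0, ext_eq e he, hP0]
  · rw [← he0, ext_eq e he]
    exact fun h => hS0 (he h)
  · intro hsol
    by_cases hr : ∃ y, e y = A.run (ext e S) (ext e P)
    · obtain ⟨y, hy⟩ := hr
      have hrun := pull_run e he S P A y hy.symm
      apply hno
      rw [hrun]
      rw [← hy] at hsol
      rcases hsol with h | ⟨h, h'⟩
      · left
        rw [ext_eq e he, ext_eq e he] at h
        exact fun h2 => h (by rw [h2])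
      · right
        rw [ext_eq e he, ext_eq e he] at h'
        exact ⟨fun h2 => h (by rw [h2, he0]), fun h2 => h' (by rw [h2])⟩
    · have e1 := ext_not e S hr
      have e2 := ext_not e P hr
      rcases hsol with h | ⟨_, h'⟩
      · rw [e1, e2] at h
        exact h rfl
      · rw [e2, e1] at h'
        exact h' rfl

end Pool.Agent.TH912.EQ
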