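import Pool.Agent.H435R3.Eol.Alg
import Pool.Agent.H424R7.FT.PADE
import Pool.Agent.H424R7.FT.PADF
import Pool.Agent.H424R7.FT.PADP
import Pool.Agent.H424R7.FT.PADR
import Pool.Agent.TH912.EQ.Query

set_option autoImplicit false

/-! End-of-Line for circuits commuting with a group: the algorithm and the hard instances. -/

namespace Pool.Agent.TH912.EQ

open Pool.Agent.NPC Pool.Agent.H424R2.PPAD Pool.Agent.H547R6 Pool.Agent.H424R7.FT
open Pool.Agent.H435R3.Eol (fn ofFn_fn zeros_ofFn)

/-- The circuit `S` commutes with a set of maps `g` of `{0,1}^n` with `g(0) = 0` that has at most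
`F` common fixed strings. -/
def FewFixed (F : ℕ) (I : Circ × Circ) : Prop :=
  ∃ Γ : Set ((Fin (eolN I) → Bool) → (Fin (eolN I) → Bool)),
    (∀ g ∈ Γ, g (zeroF (eolN I)) = zeroF (eolN I)) ∧
    (∀ g ∈ Γ, ∀ v, fn (eolN I) I.1 (g v) = g (fn (eolN I) I.1 v)) ∧
    {v : Fin (eolN I) → Bool | ∀ g ∈ Γ, g v = v}.ncard ≤ F

/-- Both circuits commute with the permutations of the bit positions in a group with at most `k`
orbits. -/
def Orbits (k : ℕ) (I : Circ × Circ) : Prop :=
  ∃ Γ : Subgroup (Equiv.Perm (Fin (eolN I))),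
    Nat.card (MulAction.orbitRel.Quotient Γ (Fin (eolN I))) ≤ k ∧
    ∀ g ∈ Γ, ∀ v : Fin (eolN I) → Bool,
      fn (eolN I) I.1 (fun i => v (g i)) = (fun i => fn (eolN I) I.1 v (g i)) ∧
      fn (eolN I) I.2 (fun i => v (g i)) = (fun i => fn (eolN I) I.2 v (g i))

/-- one step along the line, unless a solution is reached -/
def stepC (I : Circ × Circ) (v : List Bool) : List Bool :=
  bif isSolC I v then v else I.1.eval v

/-- The algorithm: follow the line from `0` for at most `|w|` steps. -/
def solveW (p : (Circ × Circ) × List Bool) : List Bool :=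
  p.2.foldl (fun v _ => stepC p.1 v) (zerosL (eolN p.1))

theorem eval_length (C : Circ) (x : List Bool) : (C.eval x).length = C.2.length := by
  unfold Circ.eval
  rw [List.length_map]

theorem fold_length (I : Circ × Circ) : ∀ (w : List Bool) (v : List Bool),
    v.length = eolN I → (w.foldl (fun v _ => stepC I v) v).length = eolN I := by
  intro w
  induction w with
  | nil => intro v hv; exact hv
  | cons b w ih =>
    intro v hv
    rw [List.foldl_cons]
    apply ih
    unfold stepC
    cases isSolC I v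
    · exact eval_length I.1 v
    · exact hv

theorem poly_solveW : Poly solveW := by
  have hn : UPoly (fun p : (Circ × Circ) × List Bool => eolN p.1) :=
    UPoly.length (Poly.snd (Poly.fst (Poly.fst Poly.id)))
  have hl : Poly (fun p : (Circ × Circ) × List Bool => p.2) := Poly.snd Poly.id
  have hs : Poly (fun p : (Circ × Circ) × List Bool => zerosL (eolN p.1)) := poly_zerosL hn
  obtain ⟨q, hq⟩ := hs.sz_le
  have hF : Poly (fun p : ((Circ × Circ) × List Bool) × List Bool × Bool =>
      stepC p.1.1 p.2.1) := by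
    have h1 : Poly (fun p : ((Circ × Circ) × List Bool) × List Bool × Bool =>
        isSolC p.1.1 p.2.1) :=
      psol_isSolC.comp (Poly.pair (Poly.fst Poly.id) (Poly.fst (Poly.snd Poly.id)))
    have h2 : Poly (fun p : ((Circ × Circ) × List Bool) × List Bool × Bool =>
        p.1.1.1.eval p.2.1) :=
      psol_eval (Poly.fst (Poly.fst (Poly.fst Poly.id))) (Poly.fst (Poly.snd Poly.id))
    exact Poly.cond h1 (Poly.fst (Poly.snd Poly.id)) h2
  refine Poly.foldl (F := fun (p : (Circ × Circ) × List Bool) v (_ : Bool) => stepC p.1 v)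
    hl hs hF (Polynomial.C 4 * q + Polynomial.C 1) ?_
  intro a k _
  have h1 := sz_listBool_le ((a.2.take k).foldl (fun v _ => stepC a.1 v) (zerosL (eolN a.1)))
  rw [fold_length a.1 _ _ (by simp [zerosL])] at h1
  have h2 := length_lt_sz (zerosL (eolN a.1))
  have h3 := hq a
  have h4 : (zerosL (eolN a.1)).length = eolN a.1 := by simp [zerosL]
  simp only [Polynomial.eval_add, Polynomial.eval_mul, Polynomial.eval_C]
  omega

theorem ptime_solveW : PTime solveW := PTime.of_poly poly_solveW

theorem solveW_correct (I : Circ × Circ) (w : List Bool) (hv : EOL.Valid I)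
    (hI : FewFixed w.length I) : EOL.IsSol I (solveW (I, w)) := by
  obtain ⟨Γ, hΓ0, hΓS, hcard⟩ := hI
  obtain ⟨hl2, hP0, hS0⟩ := hv
  have hl1 : I.1.2.length = eolN I := rfl
  have hP0' : fn (eolN I) I.2 (zeroF (eolN I)) = zeroF (eolN I) := by
    apply List.ofFn_injective
    rw [ofFn_fn hl2, ← zeros_ofFn, hP0]
  have hS0' : fn (eolN I) I.1 (zeroF (eolN I)) ≠ zeroF (eolN I) := by
    intro h
    apply hS0
    rw [zeros_ofFn, ← ofFn_fn hl1, h]
  let u : ℕ → Fin (eolN I) → Bool := fun i => (fn (eolN I) I.1)^[i] (zeroF (eolN I))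
  have h1 : ∀ i, u (i + 1) = fn (eolN I) I.1 (u i) := fun i =>
    Function.iterate_succ_apply' _ i _
  have hfix : ∀ i, u i ∈ {v : Fin (eolN I) → Bool | ∀ g ∈ Γ, g v = v} := by
    intro i
    induction i with
    | zero => exact hΓ0
    | succ i ih =>
      intro g hg
      rw [h1, ← hΓS g hg, ih g hg]
  obtain ⟨i, hi, hne⟩ := line_stops hP0' hS0' u rfl h1 _ (Set.toFinite _) hfix w.length hcard
  have hsol : isSolC I (List.ofFn (u i)) = true := by
    rw [alg_iff]
    refine ⟨List.length_ofFn, Or.inl ?_⟩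
    intro h
    apply hne
    rw [h1]
    apply List.ofFn_injective
    rw [ofFn_fn hl2, ofFn_fn hl1, h]
  -- once a solution is reached, the algorithm stays there
  have hstay : ∀ (l : List Bool) (v : List Bool), isSolC I v = true →
      l.foldl (fun v _ => stepC I v) v = v := by
    intro l
    induction l with
    | nil => intro v _; rfl
    | cons b l ih =>
      intro v hv
      rw [List.foldl_cons]
      have : stepC I v = v := by unfold stepC; rw [hv]; rfl
      rw [this]
      exact ih v hv
  have key : ∀ (l : List Bool) (j : ℕ), j ≤ i → i < j + l.length →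
      isSolC I (l.foldl (fun v _ => stepC I v) (List.ofFn (u j))) = true := by
    intro l
    induction l with
    | nil => intro j hj hi'; simp at hi'; omega
    | cons b l ih =>
      intro j hj hi'
      by_cases hs : isSolC I (List.ofFn (u j)) = true
      · rw [hstay _ _ hs]
        exact hs
      · rw [List.foldl_cons]
        have hstep : stepC I (List.ofFn (u j)) = List.ofFn (u (j + 1)) := by
          unfold stepC
          rw [Bool.not_eq_true] at hs
          rw [hs, h1, ofFn_fn hl1]
          rfl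
        rw [hstep]
        have hji : j ≠ i := by
          rintro rfl
          exact hs hsol
        apply ih (j + 1) (by omega)
        rw [List.length_cons] at hi'
        omega
  have h0 : zerosL (eolN I) = List.ofFn (u 0) := by
    rw [zerosL_eq]
    exact zeros_ofFn _
  have := key w 0 (Nat.zero_le _) (by omega)
  rw [← alg_iff]
  show isSolC I (w.foldl (fun v _ => stepC I v) (zerosL (eolN I))) = true
  rw [h0]
  exact this

theorem solvable_fewFixed (c : ℕ) : Solvable (EOLr fun I => FewFixed ((eolN I + 1) ^ c) I) := by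
  refine ⟨fun I => solveW (I, zerosL ((eolN I + 1) ^ c)), ?_, ?_⟩
  · have h3 : Poly (fun I : Circ × Circ => solveW (I, zerosL ((eolN I + 1) ^ c))) :=
      poly_solveW.comp (Poly.pair Poly.id (poly_zerosL (spa_upow c)))
    have h4 : PTime (fun I : Circ × Circ => solveW (I, zerosL ((eolN I + 1) ^ c))) :=
      PTime.of_poly h3
    exact h4
  · rintro I ⟨hv, hs⟩
    exact solveW_correct I _ hv (by simpa [zerosL] using hs)

theorem fewFixed_of_orbits {k : ℕ} {I : Circ × Circ} (h : Orbits k I) : FewFixed (2 ^ k) I := by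
  classical
  obtain ⟨Γ, hk, hΓ⟩ := h
  refine ⟨{f | ∃ g ∈ Γ, f = fun v i => v (g i)}, ?_, ?_, ?_⟩
  · rintro f ⟨g, _, rfl⟩
    rfl
  · rintro f ⟨g, hg, rfl⟩ v
    exact (hΓ g hg v).1
  · refine le_trans ?_ (Nat.pow_le_pow_right (by norm_num) hk)
    have hq : Finite (MulAction.orbitRel.Quotient Γ (Fin (eolN I))) := inferInstance
    have h2 : Nat.card (MulAction.orbitRel.Quotient Γ (Fin (eolN I)) → Bool) =
        2 ^ Nat.card (MulAction.orbitRel.Quotient Γ (Fin (eolN I))) := by
      rw [Nat.card_fun, Nat.card_eq_fintype_card (α := Bool), Fintype.card_bool]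
    rw [← h2, ← Set.ncard_univ]
    refine Set.ncard_le_ncard_of_injOn (fun v q => v (Quotient.out q)) (fun _ _ => Set.mem_univ _)
      ?_ (Set.toFinite _)
    intro v hv v' hv' hvv
    funext i
    have h3 : (MulAction.orbitRel Γ (Fin (eolN I))).r (Quotient.out
        (Quotient.mk (MulAction.orbitRel Γ (Fin (eolN I))) i)) i :=
      Quotient.exact (Quotient.out_eq _)
    obtain ⟨⟨g, hg⟩, hgi⟩ := h3
    have hgi' : g i = Quotient.out (Quotient.mk (MulAction.orbitRel Γ (Fin (eolN I))) i) := hgi
    have e1 : v (g i) = v i := congrFun (hv _ ⟨g, hg, rfl⟩) i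
    have e2 : v' (g i) = v' i := congrFun (hv' _ ⟨g, hg, rfl⟩) i
    rw [hgi'] at e1 e2
    rw [← e1, ← e2]
    exact congrFun hvv (Quotient.mk (MulAction.orbitRel Γ (Fin (eolN I))) i)

theorem solvable_orbits (c : ℕ) :
    Solvable (EOLr fun I => ∃ k, 2 ^ k ≤ (eolN I + 1) ^ c ∧ Orbits k I) := by
  obtain ⟨f, hf, h⟩ := solvable_fewFixed c
  refine ⟨f, hf, fun I hI => h I ⟨hI.1, ?_⟩⟩
  obtain ⟨k, hk, ho⟩ := hI.2
  obtain ⟨Γ, a, b, hc⟩ := fewFixed_of_orbits ho
  exact ⟨Γ, a, b, hc.trans hk⟩

end Pool.Agent.TH912.EQ
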