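import Pool.Agent.TH912.EQ.Alg
import Pool.Agent.H424R7.FT.SUB

set_option autoImplicit false

/-! End-of-Line for circuits commuting with a group with few orbits: the hard instances. -/

namespace Pool.Agent.TH912.EQ

open Pool.Agent.NPC Pool.Agent.H424R2.PPAD Pool.Agent.H547R6 Pool.Agent.H424R7.FT
open Pool.Agent.H435R3.Eol (fn ofFn_fn zeros_ofFn)

/-- The permutations of `n` positions fixing the first `m` of them. -/
def fixLow (n m : ℕ) : Subgroup (Equiv.Perm (Fin n)) where
  carrier := {g | ∀ i : Fin n, i.val < m → g i = i}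
  mul_mem' := by
    intro a b ha hb i hi
    rw [Equiv.Perm.mul_apply, hb i hi, ha i hi]
  one_mem' := by
    intro i _
    rfl
  inv_mem' := by
    intro a ha i hi
    rw [Equiv.Perm.inv_eq_iff_eq]
    exact (ha i hi).symm

theorem fixLow_ge {n m : ℕ} {g : Equiv.Perm (Fin n)} (hg : g ∈ fixLow n m) {i : Fin n}
    (hi : m ≤ i.val) : m ≤ (g i).val := by
  by_contra hcon
  have h1 : g (g i) = g i := hg (g i) (by omega)
  have h2 : g i = i := g.injective h1
  rw [h2] at hcon
  exact hcon hi

theorem fixLow_card {n m : ℕ} (hmn : m < n) :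
    Nat.card (MulAction.orbitRel.Quotient (fixLow n m) (Fin n)) ≤ m + 1 := by
  classical
  let f : Fin (m + 1) → MulAction.orbitRel.Quotient (fixLow n m) (Fin n) := fun k =>
    Quotient.mk (MulAction.orbitRel (fixLow n m) (Fin n)) ⟨k.val, by omega⟩
  have hf : Function.Surjective f := by
    intro q
    induction q using Quotient.inductionOn with
    | _ i =>
      rcases Nat.lt_or_ge i.val m with hi | hi
      · exact ⟨⟨i.val, by omega⟩, rfl⟩
      · refine ⟨⟨m, by omega⟩, ?_⟩
        apply Quotient.sound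
        have hs : Equiv.swap i (⟨m, hmn⟩ : Fin n) ∈ fixLow n m := by
          intro j hj
          apply Equiv.swap_apply_of_ne_of_ne
          · rintro rfl
            omega
          · rintro rfl
            exact absurd hj (lt_irrefl _)
        exact ⟨⟨_, hs⟩, Equiv.swap_apply_left _ _⟩
  have h1 := Nat.card_le_card_of_surjective f hf
  have h2 : Nat.card (Fin (m + 1)) = m + 1 := by
    rw [Nat.card_eq_fintype_card, Fintype.card_fin]
  exact h1.trans h2.le

theorem fn_pad (D m : ℕ) (C : Circ) (hC : C.2.length = m) (x : Fin (m + D) → Bool) :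
    fn (m + D) (padD D m C) x = fun i : Fin (m + D) =>
      (if (List.ofFn fun j : Fin D => x (Fin.natAdd m j)) = zeros D then
        C.eval (List.ofFn fun j : Fin m => x (Fin.castAdd D j)) ++
          (List.ofFn fun j : Fin D => x (Fin.natAdd m j))
      else List.ofFn x).getD i.val false := by
  funext i
  have h1 : List.ofFn x = (List.ofFn fun j : Fin m => x (Fin.castAdd D j)) ++
      (List.ofFn fun j : Fin D => x (Fin.natAdd m j)) := List.ofFn_add
  have h2 := padr_eval PADE_proof D m C (List.ofFn fun j : Fin m => x (Fin.castAdd D j))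
    (List.ofFn fun j : Fin D => x (Fin.natAdd m j)) hC List.length_ofFn List.length_ofFn
  show ((padD D m C).eval (List.ofFn x)).getD i false = _
  rw [h1, h2]

theorem getD_ofFn {n : ℕ} (x : Fin n → Bool) (i : Fin n) :
    (List.ofFn x).getD i.val false = x i := by
  rw [List.getD_eq_getElem _ _ (by rw [List.length_ofFn]; exact i.isLt), List.getElem_ofFn]

theorem ofFn_zeros_iff {D : ℕ} (d : Fin D → Bool) :
    List.ofFn d = zeros D ↔ ∀ j, d j = false := by
  rw [zeros_ofFn]
  constructor
  · intro h j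
    have := List.ofFn_injective h
    rw [this]
    rfl
  · intro h
    congr 1
    funext j
    exact h j

theorem pad_comm (D m : ℕ) (C : Circ) (hC : C.2.length = m) (g : Equiv.Perm (Fin (m + D)))
    (hg : g ∈ fixLow (m + D) m) (x : Fin (m + D) → Bool) :
    fn (m + D) (padD D m C) (fun i => x (g i)) =
      fun i => fn (m + D) (padD D m C) x (g i) := by
  rw [fn_pad D m C hC, fn_pad D m C hC]
  have h1 : (fun j : Fin m => x (g (Fin.castAdd D j))) = fun j : Fin m => x (Fin.castAdd D j) := by
    funext j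
    rw [hg (Fin.castAdd D j) j.isLt]
  have hg' : g⁻¹ ∈ fixLow (m + D) m := (fixLow (m + D) m).inv_mem hg
  have key : ∀ h : Equiv.Perm (Fin (m + D)), h ∈ fixLow (m + D) m → ∀ y : Fin (m + D) → Bool,
      (∀ j : Fin D, y (Fin.natAdd m j) = false) → ∀ j : Fin D, y (h (Fin.natAdd m j)) = false := by
    intro h hh y hy j
    have h3 : m ≤ (h (Fin.natAdd m j)).val := fixLow_ge hh (by simp)
    have h4 : h (Fin.natAdd m j) = Fin.natAdd m ⟨(h (Fin.natAdd m j)).val - m, by omega⟩ := by
      apply Fin.ext
      simp only [Fin.val_natAdd]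
      omega
    rw [h4]
    exact hy _
  have h2 : (List.ofFn (fun j : Fin D => x (g (Fin.natAdd m j))) = zeros D) ↔
      (List.ofFn (fun j : Fin D => x (Fin.natAdd m j)) = zeros D) := by
    rw [ofFn_zeros_iff, ofFn_zeros_iff]
    constructor
    · intro h j
      have h5 := key g⁻¹ hg' (fun i => x (g i)) h j
      simpa using h5
    · exact key g hg x
  funext i
  by_cases h : List.ofFn (fun j : Fin D => x (Fin.natAdd m j)) = zeros D
  · have h' := h2.2 h
    simp only [h1, h, h', if_true]
    rcases Nat.lt_or_ge i.val m with hi | hi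
    · rw [hg i hi]
    · have hl : (C.eval (List.ofFn fun j : Fin m => x (Fin.castAdd D j))).length = m := by
        rw [eval_length, hC]
      rw [List.getD_append_right _ _ _ _ (by rw [hl]; exact hi),
        List.getD_append_right _ _ _ _ (by rw [hl]; exact fixLow_ge hg hi)]
      have hz : ∀ t : ℕ, (zeros D).getD t false = false := by
        intro t
        unfold zeros
        rw [List.getD_eq_getElem?_getD, List.getElem?_replicate]
        split_ifs <;> rfl
      rw [hz, hz]
  · have h' : ¬ List.ofFn (fun j : Fin D => x (g (Fin.natAdd m j))) = zeros D := fun h5 => h (h2.1 h5)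
    simp only [h, h', if_false]
    rw [getD_ofFn, getD_ofFn]

theorem orbits_aux (n D m : ℕ) (hn : n = m + D) (hD : 1 ≤ D) (C C' : Circ) (hC : C.2.length = m)
    (hC' : C'.2.length = m) :
    ∃ Γ : Subgroup (Equiv.Perm (Fin n)),
    Nat.card (MulAction.orbitRel.Quotient Γ (Fin n)) ≤ m + 1 ∧
    ∀ g ∈ Γ, ∀ v : Fin n → Bool,
      fn n (padD D m C) (fun i => v (g i)) = (fun i => fn n (padD D m C) v (g i)) ∧
      fn n (padD D m C') (fun i => v (g i)) = (fun i => fn n (padD D m C') v (g i)) := by
  subst hn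
  exact ⟨fixLow (m + D) m, fixLow_card (by omega), fun g hg v =>
    ⟨pad_comm D m C hC g hg v, pad_comm D m C' hC' g hg v⟩⟩

theorem orbits_padI (r : ℕ) (I : Circ × Circ) (hI : EOL.Valid I) :
    Orbits (eolN I + 1) (padI r I) :=
  orbits_aux (eolN (padI r I)) ((eolN I + 1) ^ r) (eolN I) (padr_outs _ _ _)
    (Nat.one_le_pow _ _ (by omega)) I.1 I.2 rfl hI.1

theorem reduces_orbits (r : ℕ) :
    EOL.Reduces (EOLr fun I => ∃ k, k ^ r ≤ eolN I ∧ Orbits k I) := by
  have hg : PTime (fun p : (Circ × Circ) × List Bool => p.2.take (eolN p.1)) :=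
    PTime.of_poly poly_back
  refine ⟨padI r, fun p => List.take (eolN p.1) p.2, PADP_proof r, hg, ?_⟩
  intro I hI
  have h1 := padr_main PADE_proof PADF_proof r I hI
  refine ⟨⟨h1.1.1, eolN I + 1, ?_, orbits_padI r I hI⟩, h1.2⟩
  have hn : eolN (padI r I) = eolN I + (eolN I + 1) ^ r := padr_outs _ _ _
  rw [hn]
  exact Nat.le_add_left _ _

/-- If the instances with at most `(log₂ n)^(p/q)` orbits are solvable in polynomial time then
End-of-Line with `m` bits is solvable in time polynomial in the input length and `2^a`, for each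
`a ≥ (m + 1)^(q/p)`. -/
theorem sub_orbits (p q : ℕ)
    (h : Solvable (EOLr fun I => ∃ k, k ^ q ≤ (Nat.log 2 (eolN I)) ^ p ∧ Orbits k I)) :
    ∃ f : (Circ × Circ) × List Bool → List Bool, PTime f ∧
      ∀ (I : Circ × Circ) (w : List Bool) (a : ℕ), EOL.Valid I → 2 ^ a ≤ w.length →
        (eolN I + 1) ^ q ≤ a ^ p → EOL.IsSol I (f (I, w)) := by
  have h' : ∃ s : Circ × Circ → List Bool, PTime s ∧
      ∀ I, (EOL.Valid I ∧ ∃ k, k ^ q ≤ (Nat.log 2 (eolN I)) ^ p ∧ Orbits k I) →
        EOL.IsSol I (s I) := h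
  obtain ⟨s, hs, hcor⟩ := h'
  have hs' : Poly s := hs.toPoly
  have hN : UPoly (fun p : (Circ × Circ) × List Bool => eolN p.1) :=
    UPoly.length (Poly.snd (Poly.fst (Poly.fst Poly.id)))
  have hW : UPoly (fun p : (Circ × Circ) × List Bool => p.2.length) :=
    UPoly.length (Poly.snd Poly.id)
  have hpad : Poly (fun p : (Circ × Circ) × List Bool => padDI p.2.length p.1) :=
    Poly.pair (padp_main hW hN (Poly.fst (Poly.fst Poly.id)))
      (padp_main hW hN (Poly.snd (Poly.fst Poly.id)))
  have hf : Poly (fun p : (Circ × Circ) × List Bool => s (padDI p.2.length p.1)) :=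
    NPC.Poly.comp hs' hpad
  have hb : Poly (fun p : (Circ × Circ) × List Bool => p.2.take (eolN p.1)) := poly_back
  refine ⟨fun p => (s (padDI p.2.length p.1)).take (eolN p.1),
    PTime.of_poly (NPC.Poly.comp hb (Poly.pair (Poly.fst Poly.id) hf)), ?_⟩
  intro I w a hI hw ha
  apply sub_sol PADE_proof w.length I hI
  have hw1 : 1 ≤ w.length := (Nat.one_le_two_pow (n := a)).trans hw
  refine hcor (padDI w.length I) ⟨sub_valid PADE_proof _ I hI, eolN I + 1, ?_, ?_⟩
  · rw [sub_n]
    have hlog : a ≤ Nat.log 2 (eolN I + w.length) :=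
      (Nat.le_log_iff_pow_le (by norm_num) (by
        have : 0 < 2 ^ a := by positivity
        omega)).mpr (by omega)
    exact ha.trans (Nat.pow_le_pow_left hlog p)
  · exact orbits_aux (eolN (padDI w.length I)) w.length (eolN I) (sub_n _ _) hw1 I.1 I.2 rfl hI.1

theorem solvable_iff (r : ℕ) :
    Solvable (EOLr fun I => ∃ k, k ^ r ≤ eolN I ∧ Orbits k I) ↔ Solvable EOL :=
  ⟨Solvable.of_reduces (reduces_orbits r), Solvable.of_reduces (reduces_EOL _)⟩

end Pool.Agent.TH912.EQ
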