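import Pool.Agent.TH912.EQ.Hard

set_option autoImplicit false

/-! End-of-Line when one of the two maps commutes with given maps. -/

namespace Pool.Agent.TH912.EQ

open Pool.Agent.NPC Pool.Agent.H424R2.PPAD Pool.Agent.H547R6 Pool.Agent.H424R7.FT
open Pool.Agent.H435R3.Eol (fn ofFn_fn zeros_ofFn Alg Alg.run Alg.Within IsSolution sol_of)

theorem line_stops' {X : Type} {o : X} {S P : X → X} (hP : P o = o) (hS : S o ≠ o) (v : ℕ → X)
    (h0 : v 0 = o) (h1 : ∀ i, v (i + 1) = S (v i)) (A : Set X) (hA : A.Finite) (K : ℕ)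
    (hvA : ∀ i ≤ K, v i ∈ A) (hK : A.ncard ≤ K) :
    ∃ i < K, P (v (i + 1)) ≠ v i := by
  classical
  by_contra hcon
  push Not at hcon
  have h2 := line_inj hP hS v h0 h1 K hcon
  have h3 : ((Finset.range (K + 1)).image v).card = K + 1 := by
    rw [Finset.card_image_of_injOn, Finset.card_range]
    intro i hi j hj hij
    rw [Finset.mem_coe, Finset.mem_range] at hi hj
    rcases lt_trichotomy i j with h | h | h
    · exact absurd hij (h2 i j h (by omega))
    · exact h
    · exact absurd hij.symm (h2 j i h (by omega))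
  have h4 : (((Finset.range (K + 1)).image v : Finset X) : Set X) ⊆ A := by
    intro x hx
    rw [Finset.mem_coe, Finset.mem_image] at hx
    obtain ⟨i, hi, rfl⟩ := hx
    rw [Finset.mem_range] at hi
    exact hvA i (by omega)
  have h5 := Set.ncard_le_ncard h4 hA
  rw [Set.ncard_coe_finset, h3] at h5
  omega

theorem exists_bad {X : Type} [Finite X] {o : X} {S P : X → X} (hP : P o = o) (hS : S o ≠ o)
    {Γ : Set (X → X)} (hΓ : ∀ g ∈ Γ, g o = o) {F : ℕ}
    (hF : {x : X | ∀ g ∈ Γ, g x = x}.ncard ≤ F) (w : ℕ → X) (h0 : w 0 = o)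
    (h1 : ∀ i, w (i + 1) = S (w i)) :
    ∃ i < F, P (w (i + 1)) ≠ w i ∨ ∃ g ∈ Γ, g (w (i + 1)) ≠ w (i + 1) := by
  by_contra hcon
  push Not at hcon
  have hfix : ∀ i ≤ F, w i ∈ {x : X | ∀ g ∈ Γ, g x = x} := by
    intro i hi
    cases i with
    | zero => rw [h0]; exact hΓ
    | succ i => exact (hcon i (by omega)).2
  obtain ⟨i, hi, hne⟩ := line_stops' hP hS w h0 h1 _ (Set.toFinite _) F hfix hF
  exact hne (hcon i hi).1

theorem moved_sol {X : Type} {o : X} {S P : X → X} (hP : P o = o) (hS : S o ≠ o) {g : X → X}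
    (hg : ∀ x, g x = o → x = o) (hcomm : ∀ x, P (g x) = g (P x)) {u : X} (hu : g u = u)
    (hb : P (S u) = u) (hm : g (S u) ≠ S u) : g (S u) ≠ o ∧ S (P (g (S u))) ≠ g (S u) := by
  constructor
  · intro h
    have h1 := hg _ h
    rw [h1, hP] at hb
    rw [← hb] at h1
    exact hS h1
  · rw [hcomm, hb, hu]
    exact fun h => hm h.symm

/-! ### queries -/

open Classical in
/-- Follow the line; if the next vertex is moved by a map in `Γ`, output its image. -/
noncomputable def walkP {X : Type} (Γ : Set (X → X)) : ℕ → X → X → Alg X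
  | 0, prev, _ => .out prev
  | k + 1, prev, v => .ask v fun a =>
      if a.2 ≠ prev then .out prev
      else if h : ∃ g ∈ Γ, g v ≠ v then .out (h.choose v) else walkP Γ k v a.1

theorem walkP_within {X : Type} (Γ : Set (X → X)) :
    ∀ (k : ℕ) (prev v : X), (walkP Γ k prev v).Within k
  | 0, prev, v => by simp [walkP, Alg.Within]
  | k + 1, prev, v => by
    intro a
    dsimp only
    split_ifs
    · cases k <;> simp [Alg.Within]
    · cases k <;> simp [Alg.Within]
    · exact walkP_within Γ k v a.1

open Classical in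
theorem walkP_run {X : Type} {o : X} {S P : X → X} (hP : P o = o) (hS : S o ≠ o)
    {Γ : Set (X → X)} (hΓ : ∀ g ∈ Γ, ∀ x, g x = o → x = o)
    (hc : (∀ g ∈ Γ, ∀ x, S (g x) = g (S x)) ∨ (∀ g ∈ Γ, ∀ x, P (g x) = g (P x)))
    (w : ℕ → X) (h1 : ∀ i, w (i + 1) = S (w i)) :
    ∀ (k j : ℕ), (∀ g ∈ Γ, g (w j) = w j) →
      (∃ i, j ≤ i ∧ i < j + k ∧ (P (w (i + 1)) ≠ w i ∨ ∃ g ∈ Γ, g (w (i + 1)) ≠ w (i + 1))) →
      IsSolution o S P ((walkP Γ k (w j) (w (j + 1))).run S P)
  | 0, j, _, h => by
    obtain ⟨i, hi1, hi2, _⟩ := h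
    omega
  | k + 1, j, hj, h => by
    by_cases hb : P (w (j + 1)) ≠ w j
    · have e : (walkP Γ (k + 1) (w j) (w (j + 1))).run S P = w j := by
        show (if P (w (j + 1)) ≠ w j then Alg.out (w j) else _ : Alg X).run S P = w j
        rw [if_pos hb]
        rfl
      rw [e]
      left
      rw [← h1]
      exact hb
    · by_cases hm : ∃ g ∈ Γ, g (w (j + 1)) ≠ w (j + 1)
      · have e : (walkP Γ (k + 1) (w j) (w (j + 1))).run S P = hm.choose (w (j + 1)) := by
          show (if P (w (j + 1)) ≠ w j then Alg.out (w j) else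
            if h : ∃ g ∈ Γ, g (w (j + 1)) ≠ w (j + 1) then .out (h.choose (w (j + 1)))
              else walkP Γ k (w (j + 1)) (S (w (j + 1))) : Alg X).run S P = _
          rw [if_neg hb, dif_pos hm]
          rfl
        rw [e]
        obtain ⟨hg, hgm⟩ := hm.choose_spec
        generalize hm.choose = g at hg hgm
        push Not at hb
        rw [h1] at hb hgm ⊢
        rcases hc with hc | hc
        · exfalso
          apply hgm
          rw [← hc g hg, hj g hg]
        · right
          exact moved_sol hP hS (hΓ g hg) (hc g hg) (hj g hg) hb hgm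
      · have e : (walkP Γ (k + 1) (w j) (w (j + 1))).run S P =
            (walkP Γ k (w (j + 1)) (w (j + 1 + 1))).run S P := by
          show (if P (w (j + 1)) ≠ w j then Alg.out (w j) else
            if h : ∃ g ∈ Γ, g (w (j + 1)) ≠ w (j + 1) then .out (h.choose (w (j + 1)))
              else walkP Γ k (w (j + 1)) (S (w (j + 1))) : Alg X).run S P = _
          rw [if_neg hb, dif_neg hm, h1 (j + 1)]
        rw [e]
        push Not at hb hm
        apply walkP_run hP hS hΓ hc w h1 k (j + 1) hm
        obtain ⟨i, hi1, hi2, h⟩ := h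
        have hij : i ≠ j := by
          rintro rfl
          rcases h with h | ⟨g, hg, h⟩
          · exact h hb
          · exact h (hm g hg)
        exact ⟨i, by omega, by omega, h⟩

/-- **Upper bound**, one of the maps commutes with `Γ`. -/
theorem query_upper_two {X : Type} [Finite X] (o : X) (F : ℕ) (Γ : Set (X → X))
    (hΓ : ∀ g ∈ Γ, ∀ x, g x = o ↔ x = o) (hF : {x : X | ∀ g ∈ Γ, g x = x}.ncard ≤ F) :
    ∃ A : Alg X, A.Within (F + 1) ∧ ∀ S P : X → X, P o = o → S o ≠ o →
      ((∀ g ∈ Γ, ∀ x, S (g x) = g (S x)) ∨ (∀ g ∈ Γ, ∀ x, P (g x) = g (P x))) →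
        IsSolution o S P (A.run S P) := by
  have h0 : ∀ g ∈ Γ, g o = o := fun g hg => (hΓ g hg o).2 rfl
  refine ⟨.ask o fun a => walkP Γ F o a.1, ?_, ?_⟩
  · intro a
    exact walkP_within Γ F o a.1
  · intro S P hP hS hc
    let w : ℕ → X := fun i => S^[i] o
    have h1 : ∀ i, w (i + 1) = S (w i) := fun i => Function.iterate_succ_apply' S i o
    obtain ⟨i, hi, hbad⟩ := exists_bad hP hS h0 hF w rfl h1
    exact walkP_run hP hS (fun g hg x => (hΓ g hg x).1) hc w h1 F 0 h0
      ⟨i, by omega, by omega, hbad⟩

/-! ### Turing machines -/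

/-- `G` is a list of circuits computing maps `g` of `{0,1}^n` with `g(v) = 0` only for `v = 0`,
that commute with `P` and have at most `F` common fixed strings. -/
def FewFixedP (F : ℕ) (I : Circ × Circ) (G : List Circ) : Prop :=
  (∀ C ∈ G, C.2.length = eolN I ∧
    (∀ v, fn (eolN I) C v = zeroF (eolN I) ↔ v = zeroF (eolN I)) ∧
    ∀ v, fn (eolN I) I.2 (fn (eolN I) C v) = fn (eolN I) C (fn (eolN I) I.2 v)) ∧
  {v : Fin (eolN I) → Bool | ∀ C ∈ G, fn (eolN I) C v = v}.ncard ≤ F

/-- one step along the line, unless a solution is reached; the images of the next vertex under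
the circuits in `G` are tried -/
def stepG (I : Circ × Circ) (G : List Circ) (v : List Bool) : List Bool :=
  bif isSolC I v then v else
    ((G.map fun C => C.eval (I.1.eval v)).filter (isSolC I) ++ [I.1.eval v]).headD []

/-- The algorithm. -/
def solveG (p : ((Circ × Circ) × List Circ) × List Bool) : List Bool :=
  p.2.foldl (fun v _ => stepG p.1.1 p.1.2 v) (zerosL (eolN p.1.1))

theorem stepG_cases (I : Circ × Circ) (G : List Circ) (v : List Bool) :
    isSolC I (stepG I G v) = true ∨ (stepG I G v = I.1.eval v ∧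
      ∀ C ∈ G, ¬ isSolC I (C.eval (I.1.eval v)) = true) := by
  unfold stepG
  cases h : isSolC I v
  · rw [cond_false]
    cases hL : (G.map fun C => C.eval (I.1.eval v)).filter (isSolC I) with
    | nil =>
      right
      refine ⟨rfl, fun C hC hs => ?_⟩
      have : C.eval (I.1.eval v) ∈ (G.map fun C => C.eval (I.1.eval v)).filter (isSolC I) := by
        rw [List.mem_filter]
        exact ⟨List.mem_map.2 ⟨C, hC, rfl⟩, hs⟩
      rw [hL] at this
      simp at this
    | cons a t =>
      left
      have : a ∈ (G.map fun C => C.eval (I.1.eval v)).filter (isSolC I) := by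
        rw [hL]
        exact List.mem_cons_self
      exact (List.mem_filter.1 this).2
  · rw [cond_true]
    exact Or.inl h

theorem fold_lengthG (I : Circ × Circ) (G : List Circ) : ∀ (w : List Bool) (v : List Bool),
    v.length = eolN I → (w.foldl (fun v _ => stepG I G v) v).length = eolN I := by
  intro w
  induction w with
  | nil => intro v hv; exact hv
  | cons b w ih =>
    intro v hv
    rw [List.foldl_cons]
    apply ih
    rcases stepG_cases I G v with h | ⟨h, _⟩
    · exact ((alg_iff I _).1 h).1
    · rw [h]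
      exact eval_length I.1 v

theorem poly_solveG : Poly solveG := by
  have hn : UPoly (fun p : ((Circ × Circ) × List Circ) × List Bool => eolN p.1.1) :=
    UPoly.length (Poly.snd (Poly.fst (Poly.fst (Poly.fst Poly.id))))
  have hl : Poly (fun p : ((Circ × Circ) × List Circ) × List Bool => p.2) := Poly.snd Poly.id
  have hs : Poly (fun p : ((Circ × Circ) × List Circ) × List Bool => zerosL (eolN p.1.1)) :=
    poly_zerosL hn
  obtain ⟨q, hq⟩ := hs.sz_le
  have hI : Poly (fun p : (((Circ × Circ) × List Circ) × List Bool) × List Bool × Bool =>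
      p.1.1.1) := Poly.fst (Poly.fst (Poly.fst Poly.id))
  have hG : Poly (fun p : (((Circ × Circ) × List Circ) × List Bool) × List Bool × Bool =>
      p.1.1.2) := Poly.snd (Poly.fst (Poly.fst Poly.id))
  have hv : Poly (fun p : (((Circ × Circ) × List Circ) × List Bool) × List Bool × Bool =>
      p.2.1) := Poly.fst (Poly.snd Poly.id)
  have hsol : Poly (fun p : (Circ × Circ) × List Bool => isSolC p.1 p.2) :=
    psol_isSolC.comp (Poly.pair (Poly.pair (Poly.fst Poly.id) (NPC.Poly.const []))
      (Poly.snd Poly.id))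
  have hS : Poly (fun p : (((Circ × Circ) × List Circ) × List Bool) × List Bool × Bool =>
      p.1.1.1.1.eval p.2.1) := psol_eval (Poly.fst hI) hv
  have hm : Poly (fun p : (((Circ × Circ) × List Circ) × List Bool) × List Bool × Bool =>
      p.1.1.2.map fun C => C.eval (p.1.1.1.1.eval p.2.1)) :=
    NPC.Poly.map (F := fun (p : (((Circ × Circ) × List Circ) × List Bool) × List Bool × Bool)
      (C : Circ) => C.eval (p.1.1.1.1.eval p.2.1)) hG
      (psol_eval (Poly.snd Poly.id) (hS.comp (Poly.fst Poly.id)))
  have hf : Poly (fun p : (((Circ × Circ) × List Circ) × List Bool) × List Bool × Bool =>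
      (p.1.1.2.map fun C => C.eval (p.1.1.1.1.eval p.2.1)).filter (isSolC p.1.1.1)) :=
    Poly.filter (p := fun (p : (((Circ × Circ) × List Circ) × List Bool) × List Bool × Bool) v =>
      isSolC p.1.1.1 v) hm
      (hsol.comp (Poly.pair (hI.comp (Poly.fst Poly.id)) (Poly.snd Poly.id)))
  have hF : Poly (fun p : (((Circ × Circ) × List Circ) × List Bool) × List Bool × Bool =>
      stepG p.1.1.1 p.1.1.2 p.2.1) :=
    Poly.cond (hsol.comp (Poly.pair hI hv)) hv
      (poly_headD (Poly.append hf (Poly.cons hS (NPC.Poly.const []))))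
  refine Poly.foldl (F := fun (p : ((Circ × Circ) × List Circ) × List Bool) v (_ : Bool) =>
    stepG p.1.1 p.1.2 v) hl hs hF (Polynomial.C 4 * q + Polynomial.C 1) ?_
  intro a k _
  have h1 := sz_listBool_le
    ((a.2.take k).foldl (fun v _ => stepG a.1.1 a.1.2 v) (zerosL (eolN a.1.1)))
  rw [fold_lengthG a.1.1 a.1.2 _ _ (by simp [zerosL])] at h1
  have h2 := length_lt_sz (zerosL (eolN a.1.1))
  have h3 := hq a
  have h4 : (zerosL (eolN a.1.1)).length = eolN a.1.1 := by simp [zerosL]
  simp only [Polynomial.eval_add, Polynomial.eval_mul, Polynomial.eval_C]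
  omega

theorem ptime_solveG : PTime solveG := PTime.of_poly poly_solveG

theorem solveG_correct (I : Circ × Circ) (G : List Circ) (w : List Bool) (hv : EOL.Valid I)
    (hI : FewFixed w.length I ∨ FewFixedP w.length I G) :
    EOL.IsSol I (solveG ((I, G), w)) := by
  obtain ⟨hl2, hP0, hS0⟩ := hv
  have hl1 : I.1.2.length = eolN I := rfl
  have hP0' : fn (eolN I) I.2 (zeroF (eolN I)) = zeroF (eolN I) := by
    apply List.ofFn_injective
    rw [ofFn_fn hl2, ← zeros_ofFn, hP0]
  have hS0' : fn (eolN I) I.1 (zeroF (eolN I)) ≠ zeroF (eolN I) := by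
    intro h
    apply hS0
    rw [zeros_ofFn, ← ofFn_fn hl1, h]
  let u : ℕ → Fin (eolN I) → Bool := fun i => (fn (eolN I) I.1)^[i] (zeroF (eolN I))
  have h1 : ∀ i, u (i + 1) = fn (eolN I) I.1 (u i) := fun i =>
    Function.iterate_succ_apply' _ i _
  have hsol : ∀ x : Fin (eolN I) → Bool,
      Sol (zeroF (eolN I)) (fn (eolN I) I.1) (fn (eolN I) I.2) x →
      isSolC I (List.ofFn x) = true := fun x hx =>
    (alg_iff I _).2 (sol_of hl1 hl2 hx)
  -- some vertex of the line, or an image of its successor, is a solution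
  have hbad : ∃ i < w.length, isSolC I (List.ofFn (u i)) = true ∨
      ∃ C ∈ G, isSolC I (C.eval (List.ofFn (u (i + 1)))) = true := by
    rcases hI with ⟨Γ, hΓ0, hΓS, hcard⟩ | ⟨hG, hcard⟩
    · have hfix : ∀ i, u i ∈ {v : Fin (eolN I) → Bool | ∀ g ∈ Γ, g v = v} := by
        intro i
        induction i with
        | zero => exact hΓ0
        | succ i ih =>
          intro g hg
          rw [h1, ← hΓS g hg, ih g hg]
      obtain ⟨i, hi, hne⟩ := line_stops hP0' hS0' u rfl h1 _ (Set.toFinite _) hfix w.length hcard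
      refine ⟨i, hi, Or.inl (hsol _ (Or.inl ?_))⟩
      rw [← h1]
      exact hne
    · classical
      have hcard' : {v : Fin (eolN I) → Bool |
          ∀ g ∈ {g | ∃ C ∈ G, g = fn (eolN I) C}, g v = v}.ncard ≤ w.length := by
        refine le_of_eq_of_le (congrArg Set.ncard ?_) hcard
        ext v
        constructor
        · intro h C hC
          exact h _ ⟨C, hC, rfl⟩
        · rintro h _ ⟨C, hC, rfl⟩
          exact h C hC
      have hex := exists_bad hP0' hS0' (Γ := {g | ∃ C ∈ G, g = fn (eolN I) C})
        (by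
          rintro g ⟨C, hC, rfl⟩
          exact ((hG C hC).2.1 _).2 rfl) hcard' u rfl h1
      let i := Nat.find hex
      obtain ⟨hi, hb⟩ := Nat.find_spec hex
      have hmin : ∀ j < i, ¬ (j < w.length ∧ (fn (eolN I) I.2 (u (j + 1)) ≠ u j ∨
          ∃ g ∈ {g | ∃ C ∈ G, g = fn (eolN I) C}, g (u (j + 1)) ≠ u (j + 1))) := fun j hj =>
        Nat.find_min hex hj
      have hfix : ∀ C ∈ G, fn (eolN I) C (u i) = u i := by
        intro C hC
        rcases Nat.eq_zero_or_pos i with h0 | hpos
        · rw [h0]
          exact ((hG C hC).2.1 _).2 rfl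
        · obtain ⟨j, hj⟩ : ∃ j, i = j + 1 := ⟨i - 1, by omega⟩
          by_contra hcon
          apply hmin j (by omega)
          refine ⟨by have : i < w.length := hi; omega, Or.inr ⟨_, ⟨C, hC, rfl⟩, ?_⟩⟩
          rw [hj] at hcon
          exact hcon
      refine ⟨i, hi, ?_⟩
      by_cases hb1 : fn (eolN I) I.2 (u (i + 1)) = u i
      · right
        rcases hb with hb | ⟨_, ⟨C, hC, rfl⟩, hm⟩
        · exact absurd hb1 hb
        · refine ⟨C, hC, ?_⟩
          rw [← ofFn_fn (hG C hC).1]
          apply hsol
          right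
          change fn (eolN I) C (u (i + 1)) ≠ u (i + 1) at hm
          rw [h1] at hb1 hm ⊢
          exact moved_sol hP0' hS0' (fun x => ((hG C hC).2.1 x).1) (hG C hC).2.2 (hfix C hC) hb1 hm
      · left
        apply hsol
        left
        rw [← h1]
        exact hb1
  obtain ⟨i, hi, hbad⟩ := hbad
  -- once a solution is reached, the algorithm stays there
  have hstay : ∀ (l : List Bool) (v : List Bool), isSolC I v = true →
      l.foldl (fun v _ => stepG I G v) v = v := by
    intro l
    induction l with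
    | nil => intro v _; rfl
    | cons b l ih =>
      intro v hv
      rw [List.foldl_cons]
      have : stepG I G v = v := by unfold stepG; rw [hv]; rfl
      rw [this]
      exact ih v hv
  have key : ∀ (l : List Bool) (j : ℕ), j ≤ i → i < j + l.length →
      isSolC I (l.foldl (fun v _ => stepG I G v) (List.ofFn (u j))) = true := by
    intro l
    induction l with
    | nil => intro j hj hi'; simp at hi'; omega
    | cons b l ih =>
      intro j hj hi'
      by_cases hs : isSolC I (List.ofFn (u j)) = true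
      · rw [hstay _ _ hs]
        exact hs
      · rw [List.foldl_cons]
        have e : I.1.eval (List.ofFn (u j)) = List.ofFn (u (j + 1)) := by
          rw [h1, ofFn_fn hl1]
        rcases stepG_cases I G (List.ofFn (u j)) with h | ⟨h, h'⟩
        · rw [hstay _ _ h]
          exact h
        · rw [h, e]
          have hji : j ≠ i := by
            rintro rfl
            rcases hbad with hbad | ⟨C, hC, hbad⟩
            · exact hs hbad
            · apply h' C hC
              rw [e]
              exact hbad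
          apply ih (j + 1) (by omega)
          rw [List.length_cons] at hi'
          omega
  have h0 : zerosL (eolN I) = List.ofFn (u 0) := by
    rw [zerosL_eq]
    exact zeros_ofFn _
  have := key w 0 (Nat.zero_le _) (by omega)
  rw [← alg_iff]
  show isSolC I (w.foldl (fun v _ => stepG I G v) (zerosL (eolN I))) = true
  rw [h0]
  exact this

end Pool.Agent.TH912.EQ
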